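import Pool.Agent.L7h70.SM.Stm
import Pool.Agent.L7h70.SB.Tr
import Pool.Agent.L7h46.SB.Den
import Pool.Agent.Y262.QE.All

/-!
# Project SM: local modification of a continuous metric (`S_MOD`)
-/

set_option autoImplicit false

open Set Filter Topology MeasureTheory
open scoped Real ContDiff
open Pool.Agent.Y262.QE

noncomputable section

namespace Pool.Agent.L7h46.SM

open Pool.Agent.L7h70.SM Pool.Agent.L7h70.SB

/-! ### Linear algebra -/

lemma det_comp (A B : ℂ →L[ℝ] ℂ) : (A.comp B).det = A.det * B.det :=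
  LinearMap.det_comp (A : ℂ →ₗ[ℝ] ℂ) (B : ℂ →ₗ[ℝ] ℂ)

lemma det_id : (ContinuousLinearMap.id ℝ ℂ).det = 1 := LinearMap.det_id

lemma det_ne {B : ℂ →L[ℝ] ℂ} (h : ∀ u, B u = 0 → u = 0) : B.det ≠ 0 := by
  intro h0
  have h1 := LinearMap.bot_lt_ker_of_det_eq_zero (f := (B : ℂ →ₗ[ℝ] ℂ)) h0
  obtain ⟨u, hu, hu0⟩ := SetLike.exists_of_lt h1
  exact hu0 (by simpa using h u hu)

lemma comp_inv {A : ℂ →L[ℝ] ℂ} (hA : A.det ≠ 0) : A.comp A.inverse = ContinuousLinearMap.id ℝ ℂ := by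
  ext1 v
  exact Pool.Agent.Y708.QE.inv_apply hA v

lemma inv_comp {A : ℂ →L[ℝ] ℂ} (hA : A.det ≠ 0) : A.inverse.comp A = ContinuousLinearMap.id ℝ ℂ := by
  ext1 v
  exact Pool.Agent.Y708.QE.inv_apply' hA v

lemma det_inv {A : ℂ →L[ℝ] ℂ} (hA : A.det ≠ 0) : A.inverse.det = A.det⁻¹ := by
  have h1 := det_comp A A.inverse
  rw [comp_inv hA, det_id] at h1
  exact eq_inv_of_mul_eq_one_right h1.symm

lemma inv_cont {X : Type} [TopologicalSpace X] {s : Set X} {A : X → ℂ →L[ℝ] ℂ}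
    (hA : ContinuousOn A s) (hd : ∀ x ∈ s, (A x).det ≠ 0) :
    ContinuousOn (fun x => (A x).inverse) s := by
  intro x hx
  have h1 := contDiffAt_map_inverse (𝕜 := ℝ) (n := 0)
    ((A x).toContinuousLinearEquivOfDetNeZero (hd x hx))
  rw [(A x).coe_toContinuousLinearEquivOfDetNeZero (hd x hx)] at h1
  exact h1.continuousAt.comp_continuousWithinAt (hA x hx)

/-! ### The transition maps -/

section

variable {M : Type} [MetricSpace M] [CompactSpace M] [MeasurableSpace M] [BorelSpace M]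
  {μ : Measure M} {D : Data M}

/-- the differential of the change from the chart `j` to the chart `i` -/
def Pt (D : Data M) (j i : Fin D.N) (w : ℂ) : ℂ →L[ℝ] ℂ := fderiv ℝ (fun z => D.φ i (D.ψ j z)) w

omit [CompactSpace M] [BorelSpace M] in
lemma ev_left (hD : D.IsSurf μ) {i : Fin D.N} {x : M} (hx : x ∈ D.U i) {O : Set M}
    (hO : O ∈ 𝓝 x) : ∀ᶠ z in 𝓝 (D.φ i x), D.ψ i z ∈ O := by
  have h1 : ContinuousAt (D.ψ i) (D.φ i x) :=
    (hD.contψ i).continuousAt ((hD.openT i).mem_nhds ⟨x, hx, rfl⟩)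
  have h2 : O ∈ 𝓝 (D.ψ i (D.φ i x)) := by
    rw [hD.left i x hx]
    exact hO
  exact h1 h2

omit [CompactSpace M] [BorelSpace M] in
lemma Pt_comp (hD : D.IsSurf μ) {j k l : Fin D.N} {x : M} (hj : x ∈ D.U j) (hk : x ∈ D.U k)
    (hl : x ∈ D.U l) : (Pt D k l (D.φ k x)).comp (Pt D j k (D.φ j x)) = Pt D j l (D.φ j x) := by
  have h1 : (fun z => D.φ l (D.ψ j z)) =ᶠ[𝓝 (D.φ j x)]
      (fun z => D.φ l (D.ψ k z)) ∘ fun z => D.φ k (D.ψ j z) := by
    filter_upwards [ev_left hD hj ((hD.openU k).mem_nhds hk)] with z hz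
    show D.φ l (D.ψ j z) = D.φ l (D.ψ k (D.φ k (D.ψ j z)))
    rw [hD.left k _ hz]
  have h2 : D.φ k (D.ψ j (D.φ j x)) = D.φ k x := by rw [hD.left j x hj]
  have h3 : DifferentiableAt ℝ (fun z => D.φ k (D.ψ j z)) (D.φ j x) :=
    (hD.tr j k x hj hk).1.differentiableAt one_ne_zero
  have h4 : DifferentiableAt ℝ (fun z => D.φ l (D.ψ k z))
      ((fun z => D.φ k (D.ψ j z)) (D.φ j x)) := by
    show DifferentiableAt ℝ (fun z => D.φ l (D.ψ k z)) (D.φ k (D.ψ j (D.φ j x)))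
    rw [h2]
    exact (hD.tr k l x hk hl).1.differentiableAt one_ne_zero
  have h5 := fderiv_comp (g := fun z => D.φ l (D.ψ k z)) (f := fun z => D.φ k (D.ψ j z))
    (D.φ j x) h4 h3
  unfold Pt
  rw [h1.fderiv_eq, h5, h2]

omit [CompactSpace M] [BorelSpace M] in
lemma Pt_self (hD : D.IsSurf μ) {j : Fin D.N} {x : M} (hj : x ∈ D.U j) :
    Pt D j j (D.φ j x) = ContinuousLinearMap.id ℝ ℂ := by
  have h1 : (fun z => D.φ j (D.ψ j z)) =ᶠ[𝓝 (D.φ j x)] fun z => z := by
    filter_upwards [(hD.openT j).mem_nhds ⟨x, hj, rfl⟩] with z hz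
    obtain ⟨y, hy, rfl⟩ := hz
    rw [hD.left j y hy]
  unfold Pt
  rw [h1.fderiv_eq]
  exact fderiv_fun_id

omit [CompactSpace M] [BorelSpace M] in
lemma Pt_cont (hD : D.IsSurf μ) {j i : Fin D.N} {x : M} (hj : x ∈ D.U j) (hi : x ∈ D.U i) :
    ContinuousAt (Pt D j i) (D.φ j x) :=
  ((hD.tr j i x hj hi).1.fderiv_right (m := 0) le_rfl).continuousAt

/-! ### The modified coframe -/

open Classical in
/-- the coframe which is equal to `B` in the chart `i` (up to rotations) -/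
def mod (D : Data M) (i : Fin D.N) (B : ℂ → ℂ →L[ℝ] ℂ) (j : Fin D.N) (w : ℂ) : ℂ →L[ℝ] ℂ :=
  if D.ψ j w ∈ D.U i then
    (D.A j w).comp ((Pt D i j (D.φ i (D.ψ j w))).comp
      (((D.A i (D.φ i (D.ψ j w))).inverse.comp (B (D.φ i (D.ψ j w)))).comp (Pt D j i w)))
  else D.A j w

variable {i : Fin D.N} {B : ℂ → ℂ →L[ℝ] ℂ}

omit [CompactSpace M] [BorelSpace M] in
lemma mod_eq (hD : D.IsSurf μ) {j : Fin D.N} {x : M} (hj : x ∈ D.U j) (hi : x ∈ D.U i) :
    mod D i B j (D.φ j x) = (D.A j (D.φ j x)).comp ((Pt D i j (D.φ i x)).comp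
      (((D.A i (D.φ i x)).inverse.comp (B (D.φ i x))).comp (Pt D j i (D.φ j x)))) := by
  have h : D.ψ j (D.φ j x) = x := hD.left j x hj
  unfold mod
  rw [h, if_pos hi]

omit [CompactSpace M] [BorelSpace M] in
lemma mod_eq' (hD : D.IsSurf μ) {j : Fin D.N} {x : M} (hj : x ∈ D.U j) (hi : x ∉ D.U i) :
    mod D i B j (D.φ j x) = D.A j (D.φ j x) := by
  have h : D.ψ j (D.φ j x) = x := hD.left j x hj
  unfold mod
  rw [h, if_neg hi]

omit [CompactSpace M] [BorelSpace M] in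
lemma norm_mod (hD : D.IsSurf μ) {j : Fin D.N} {x : M} (hj : x ∈ D.U j) (hi : x ∈ D.U i) (v : ℂ) :
    ‖mod D i B j (D.φ j x) v‖ = ‖B (D.φ i x) (Pt D j i (D.φ j x) v)‖ := by
  rw [mod_eq hD hj hi]
  show ‖D.A j (D.φ j x) (Pt D i j (D.φ i x) ((D.A i (D.φ i x)).inverse (B (D.φ i x)
    (Pt D j i (D.φ j x) v))))‖ = _
  have h1 := (hD.tr i j x hi hj).2 ((D.A i (D.φ i x)).inverse (B (D.φ i x)
    (Pt D j i (D.φ j x) v)))
  unfold Pt at h1 ⊢
  rw [h1, Pool.Agent.Y708.QE.inv_apply (hD.det i _ ⟨x, hi, rfl⟩)]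

omit [CompactSpace M] [BorelSpace M] in
lemma det_mod (hD : D.IsSurf μ) {j : Fin D.N} {x : M} (hj : x ∈ D.U j) (hi : x ∈ D.U i) :
    (mod D i B j (D.φ j x)).det =
      (D.A j (D.φ j x)).det * ((B (D.φ i x)).det / (D.A i (D.φ i x)).det) := by
  have h0 := hD.det i _ ⟨x, hi, rfl⟩
  have h1 : (Pt D i j (D.φ i x)).det * (Pt D j i (D.φ j x)).det = 1 := by
    rw [← det_comp, Pt_comp hD hj hi hj, Pt_self hD hj, det_id]
  rw [mod_eq hD hj hi, det_comp, det_comp, det_comp, det_comp, det_inv h0]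
  calc (D.A j (D.φ j x)).det * ((Pt D i j (D.φ i x)).det *
        ((D.A i (D.φ i x)).det⁻¹ * (B (D.φ i x)).det * (Pt D j i (D.φ j x)).det))
      = (D.A j (D.φ j x)).det * ((B (D.φ i x)).det / (D.A i (D.φ i x)).det) *
        ((Pt D i j (D.φ i x)).det * (Pt D j i (D.φ j x)).det) := by ring
    _ = _ := by rw [h1, mul_one]

/-- the density of the modified area -/
def dens (D : Data M) (i : Fin D.N) (B : ℂ → ℂ →L[ℝ] ℂ) (x : M) : ℝ :=
  1 + Pool.Agent.L7h70.SB.ext D i (fun z => |(B z).det| / |(D.A i z).det| - 1) x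

omit [CompactSpace M] [BorelSpace M] [MetricSpace M] [MeasurableSpace M] in
lemma dens_eq {x : M} (hi : x ∈ D.U i) :
    dens D i B x = |(B (D.φ i x)).det| / |(D.A i (D.φ i x)).det| := by
  unfold dens Pool.Agent.L7h70.SB.ext
  rw [if_pos hi]
  ring

omit [CompactSpace M] [BorelSpace M] [MetricSpace M] [MeasurableSpace M] in
lemma dens_eq' {x : M} (hi : x ∉ D.U i) : dens D i B x = 1 := by
  unfold dens Pool.Agent.L7h70.SB.ext
  rw [if_neg hi]
  ring

theorem mod_surf (hD : D.IsSurf μ) {K : Set ℂ} (hK : IsCompact K) (hKT : K ⊆ D.T i)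
    (hBc : ContinuousOn B (D.T i)) (hBd : ∀ z ∈ D.T i, (B z).det ≠ 0)
    (hBK : ∀ z ∈ D.T i, z ∉ K → B z = D.A i z) :
    (mk D (mod D i B)).IsSurf (wm μ (dens D i B)) := by
  classical
  have hmem : ∀ x ∈ D.U i, D.φ i x ∈ D.T i := fun x hx => ⟨x, hx, rfl⟩
  -- near the complement of the chart
  have hnear : ∀ x, x ∉ D.U i → ∀ᶠ y in 𝓝 x, y ∈ D.U i → D.φ i y ∉ K := by
    intro x hx
    have h1 : IsCompact (D.ψ i '' K) := hK.image_of_continuousOn ((hD.contψ i).mono hKT)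
    have h2 : x ∈ (D.ψ i '' K)ᶜ := by
      rintro ⟨z, hz, rfl⟩
      obtain ⟨y, hy, rfl⟩ := hKT hz
      rw [hD.left i y hy] at hx
      exact hx hy
    filter_upwards [h1.isClosed.isOpen_compl.mem_nhds h2] with y hy hyU hyK
    exact hy ⟨D.φ i y, hyK, hD.left i y hyU⟩
  -- where `B` is not changed
  have hsame : ∀ (j : Fin D.N) (x : M), x ∈ D.U j → x ∈ D.U i → D.φ i x ∉ K →
      mod D i B j (D.φ j x) = D.A j (D.φ j x) := by
    intro j x hj hi hx
    rw [mod_eq hD hj hi, hBK _ (hmem x hi) hx, inv_comp (hD.det i _ (hmem x hi)),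
      ContinuousLinearMap.id_comp, Pt_comp hD hj hi hj, Pt_self hD hj, ContinuousLinearMap.comp_id]
  -- the density
  have hdpos : ∀ x, 0 < dens D i B x := by
    intro x
    by_cases hx : x ∈ D.U i
    · rw [dens_eq hx]
      exact div_pos (abs_pos.2 (hBd _ (hmem x hx))) (abs_pos.2 (hD.det i _ (hmem x hx)))
    · rw [dens_eq' hx]
      exact one_pos
  have hdetc : Continuous fun A : ℂ →L[ℝ] ℂ => A.det := ContinuousLinearMap.continuous_det
  have hdcont : Continuous (dens D i B) := by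
    rw [continuous_iff_continuousAt]
    intro x
    by_cases hx : x ∈ D.U i
    · have h1 : dens D i B =ᶠ[𝓝 x] fun y => |(B (D.φ i y)).det| / |(D.A i (D.φ i y)).det| := by
        filter_upwards [(hD.openU i).mem_nhds hx] with y hy
        exact dens_eq hy
      refine ContinuousAt.congr ?_ h1.symm
      have hφ : ContinuousAt (D.φ i) x := (hD.contφ i).continuousAt ((hD.openU i).mem_nhds hx)
      have hT := (hD.openT i).mem_nhds (hmem x hx)
      have hB1 : ContinuousAt (fun y => (B (D.φ i y)).det) x :=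
        hdetc.continuousAt.comp (ContinuousAt.comp (f := D.φ i) (hBc.continuousAt hT) hφ)
      have hA1 : ContinuousAt (fun y => (D.A i (D.φ i y)).det) x :=
        hdetc.continuousAt.comp (ContinuousAt.comp (f := D.φ i) ((hD.contA i).continuousAt hT) hφ)
      exact hB1.abs.div hA1.abs (abs_ne_zero.2 (hD.det i _ (hmem x hx)))
    · refine ContinuousAt.congr (continuousAt_const (y := (1 : ℝ))) ?_
      filter_upwards [hnear x hx] with y hy
      by_cases hyU : y ∈ D.U i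
      · rw [dens_eq hyU, hBK _ (hmem y hyU) (hy hyU)]
        exact (div_self (abs_ne_zero.2 (hD.det i _ (hmem y hyU)))).symm
      · rw [dens_eq' hyU]
  have hconf := (tConf M μ D hD (dens D i B) hdcont hdpos).1
  -- determinants
  have hdet : ∀ (j : Fin D.N) (x : M), x ∈ D.U j →
      |(mod D i B j (D.φ j x)).det| = dens D i B x * |(D.A j (D.φ j x)).det| := by
    intro j x hj
    by_cases hi : x ∈ D.U i
    · rw [det_mod hD hj hi, dens_eq hi, abs_mul, abs_div]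
      ring
    · rw [mod_eq' hD hj hi, dens_eq' hi, one_mul]
  refine ⟨hD.openU, hD.cover, hD.left, hD.contφ, hD.openT, hD.contψ, ?_, ?_, ?_, ?_⟩
  · rintro (j : Fin D.N) z ⟨x, hx, rfl⟩
    have hx' : x ∈ D.U j := hx
    show (mod D i B j (D.φ j x)).det ≠ 0
    rw [← abs_ne_zero, hdet j x hx']
    exact mul_ne_zero (hdpos x).ne' (abs_ne_zero.2 (hD.det j _ ⟨x, hx', rfl⟩))
  · intro (j : Fin D.N)
    show ContinuousOn (mod D i B j) (D.T j)
    rintro w ⟨x, hj, rfl⟩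
    apply ContinuousAt.continuousWithinAt
    have hTj := (hD.openT j).mem_nhds (⟨x, hj, rfl⟩ : D.φ j x ∈ D.T j)
    have hAj : ContinuousAt (D.A j) (D.φ j x) := (hD.contA j).continuousAt hTj
    by_cases hi : x ∈ D.U i
    · have h1 : mod D i B j =ᶠ[𝓝 (D.φ j x)] fun w =>
          (D.A j w).comp ((Pt D i j (D.φ i (D.ψ j w))).comp
            (((D.A i (D.φ i (D.ψ j w))).inverse.comp (B (D.φ i (D.ψ j w)))).comp (Pt D j i w))) := by
        filter_upwards [ev_left hD hj ((hD.openU i).mem_nhds hi)] with w hw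
        unfold mod
        rw [if_pos hw]
      refine ContinuousAt.congr ?_ h1.symm
      have h2 : ContinuousAt (fun w => D.φ i (D.ψ j w)) (D.φ j x) := (hD.tr j i x hj hi).1.continuousAt
      have h2v : D.φ i (D.ψ j (D.φ j x)) = D.φ i x := by rw [hD.left j x hj]
      have hTi := (hD.openT i).mem_nhds (hmem x hi)
      have hcomp : ∀ {F : ℂ → ℂ →L[ℝ] ℂ}, ContinuousAt F (D.φ i x) →
          ContinuousAt (fun w => F (D.φ i (D.ψ j w))) (D.φ j x) := by
        intro F hF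
        have hF' : ContinuousAt F (D.φ i (D.ψ j (D.φ j x))) := by rw [h2v]; exact hF
        exact ContinuousAt.comp (f := fun w => D.φ i (D.ψ j w)) hF' h2
      have h3 := hcomp (Pt_cont hD (j := i) (i := j) hi hj)
      have h4 := hcomp (hBc.continuousAt hTi)
      have h5 := hcomp ((inv_cont (hD.contA i) (hD.det i)).continuousAt hTi)
      have h6 := Pt_cont hD (j := j) (i := i) hj hi
      exact hAj.clm_comp (h3.clm_comp ((h5.clm_comp h4).clm_comp h6))
    · refine ContinuousAt.congr hAj ?_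
      filter_upwards [ev_left hD hj (hnear x hi), hTj] with w hw hwT
      obtain ⟨y, hy, rfl⟩ := hwT
      rw [hD.left j y hy] at hw
      by_cases hyi : y ∈ D.U i
      · exact (hsame j y hy hyi (hw hyi)).symm
      · exact (mod_eq' hD hy hyi).symm
  · intro (k : Fin D.N) (j : Fin D.N) x (hk : x ∈ D.U k) (hj : x ∈ D.U j)
    refine ⟨(hD.tr k j x hk hj).1, fun v => ?_⟩
    show ‖mod D i B j (D.φ j x) (Pt D k j (D.φ k x) v)‖ = ‖mod D i B k (D.φ k x) v‖
    by_cases hi : x ∈ D.U i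
    · rw [norm_mod hD hj hi, norm_mod hD hk hi, ← Pt_comp hD hk hj hi]
      rfl
    · rw [mod_eq' hD hj hi, mod_eq' hD hk hi]
      exact (hD.tr k j x hk hj).2 v
  · intro (j : Fin D.N) S (hS : S ⊆ D.U j) hSm
    have h1 := hconf.area j S hS hSm
    have hST : D.φ j '' S ⊆ D.T j := image_mono hS
    have himgm : MeasurableSet (D.φ j '' S) := by
      have himg : ∀ z ∈ D.T j, (D.ψ j z ∈ S ↔ z ∈ D.φ j '' S) := by
        rintro z ⟨x, hx, rfl⟩
        rw [hD.left j x hx]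
        constructor
        · intro h; exact ⟨x, h, rfl⟩
        · rintro ⟨y, hy, hxy⟩
          have : D.ψ j (D.φ j y) = D.ψ j (D.φ j x) := by rw [hxy]
          rw [hD.left j y (hS hy), hD.left j x hx] at this
          exact this ▸ hy
      have e : D.φ j '' S = D.T j ∩ D.ψ j ⁻¹' S := by
        ext z
        constructor
        · intro hz; exact ⟨hST hz, (himg z (hST hz)).mpr hz⟩
        · rintro ⟨hz, hz'⟩; exact (himg z hz).mp hz'
      rw [e]
      have hmm : Measurable (fun z : D.T j => D.ψ j z) :=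
        (continuousOn_iff_continuous_domRestrict.mp (hD.contψ j)).measurable
      have h3 : MeasurableSet ((fun z : D.T j => D.ψ j z) ⁻¹' S) := hmm hSm
      have h4 := (hD.openT j).measurableSet.subtype_image h3
      convert h4 using 1
      ext z
      simp [and_comm]
    refine h1.trans ?_
    show ∫⁻ z in D.φ j '' S, ENNReal.ofReal |(Real.sqrt (dens D i B (D.ψ j z)) • D.A j z).det| =
      ∫⁻ z in D.φ j '' S, ENNReal.ofReal |(mod D i B j z).det|
    apply setLIntegral_congr_fun himgm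
    rintro z ⟨x, hx, rfl⟩
    show ENNReal.ofReal |(Real.sqrt (dens D i B (D.ψ j (D.φ j x))) • D.A j (D.φ j x)).det| =
      ENNReal.ofReal |(mod D i B j (D.φ j x)).det|
    rw [Pool.Agent.Y492.QE.det_smul2, Real.sq_sqrt (hdpos _).le, abs_mul, abs_of_pos (hdpos _),
      hD.left j x (hS hx), hdet j x (hS hx)]

omit [CompactSpace M] [BorelSpace M] in
theorem mod_near (hD : D.IsSurf μ) {ε : ℝ} (hε : 0 ≤ ε)
    (hB : ∀ z ∈ D.T i, ∀ u, ‖D.A i z u‖ ≤ Real.exp ε * ‖B z u‖ ∧ ‖B z u‖ ≤ Real.exp ε * ‖D.A i z u‖) :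
    Near D ε D.A (mod D i B) := by
  rintro j w ⟨x, hj, rfl⟩ v
  by_cases hi : x ∈ D.U i
  · have h1 : ‖D.A j (D.φ j x) v‖ = ‖D.A i (D.φ i x) (Pt D j i (D.φ j x) v)‖ :=
      ((hD.tr j i x hj hi).2 v).symm
    rw [norm_mod hD hj hi, h1]
    exact hB _ ⟨x, hi, rfl⟩ _
  · rw [mod_eq' hD hj hi]
    have h1 : 1 ≤ Real.exp ε := Real.one_le_exp hε
    have h2 := norm_nonneg (D.A j (D.φ j x) v)
    constructor <;> nlinarith

end

/-! ### The sphere in the plane -/

/-- the conformal factor of the sphere -/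
def kf (R : ℝ) (y : ℂ) : ℝ := 2 * R ^ 2 / (R ^ 2 + ‖y‖ ^ 2)

lemma kf_bound {R η : ℝ} (hR : 0 < R) (hη : 0 < η) {y : ℂ}
    (h1 : R ^ 2 * Real.exp (-3 * η) < ‖y‖ ^ 2) (h2 : ‖y‖ ^ 2 < R ^ 2 * Real.exp (3 * η)) :
    |kf R y - 1| ≤ Real.exp (3 * η) - 1 := by
  have hR2 : 0 < R ^ 2 := by positivity
  have hp : 0 < R ^ 2 + ‖y‖ ^ 2 := by positivity
  have e3 : Real.exp (3 * η) * Real.exp (-3 * η) = 1 := by rw [← Real.exp_add]; simp
  have h3 : 1 ≤ Real.exp (3 * η) := Real.one_le_exp (by positivity)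
  have h4' : 0 < Real.exp (-3 * η) := Real.exp_pos _
  set E := Real.exp (3 * η)
  set F := Real.exp (-3 * η)
  have hF1 : F ≤ 1 := by nlinarith
  rw [abs_le]
  unfold kf
  constructor
  · have h5 : 2 - E ≤ 2 * R ^ 2 / (R ^ 2 + ‖y‖ ^ 2) := by
      rw [le_div_iff₀ hp]
      rcases le_total E 2 with h6 | h6
      · have h7 : (2 - E) * (R ^ 2 + ‖y‖ ^ 2) ≤ (2 - E) * (R ^ 2 + R ^ 2 * E) :=
          mul_le_mul_of_nonneg_left (by linarith) (by linarith)
        have h8 : 0 ≤ R ^ 2 * (E * (E - 1)) :=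
          mul_nonneg hR2.le (mul_nonneg (by linarith) (by linarith))
        nlinarith
      · have h7 : (2 - E) * (R ^ 2 + ‖y‖ ^ 2) ≤ 0 :=
          mul_nonpos_of_nonpos_of_nonneg (by linarith) hp.le
        linarith
    linarith
  · rw [sub_le_sub_iff_right, div_le_iff₀ hp]
    nlinarith

theorem s_MOD : S_MOD := by
  intro M _ _ _ _ _ μ D hD ε hε
  obtain ⟨x₀⟩ := (inferInstance : Nonempty M)
  obtain ⟨i, hi⟩ := hD.cover x₀
  set z₀ : ℂ := D.φ i x₀ with hz₀
  have hz₀T : z₀ ∈ D.T i := ⟨x₀, hi, rfl⟩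
  set L : ℂ →L[ℝ] ℂ := D.A i z₀ with hL
  have hLd : L.det ≠ 0 := hD.det i z₀ hz₀T
  set s : ℝ := ‖L.inverse‖ + 1 with hs
  have hs0 : 0 < s := by positivity
  have hLs : ∀ u : ℂ, ‖u‖ ≤ s * ‖L u‖ := by
    intro u
    have h1 := L.inverse.le_opNorm (L u)
    rw [Pool.Agent.Y708.QE.inv_apply' hLd] at h1
    have := norm_nonneg (L u)
    rw [hs]; nlinarith
  set δ : ℝ := min (ε / 4) (1 / 4) with hδ
  have hδ0 : 0 < δ := by positivity
  have hδε : 4 * δ ≤ ε := by
    have : δ ≤ ε / 4 := min_le_left _ _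
    linarith
  have hδ4 : δ ≤ 1 / 4 := min_le_right _ _
  obtain ⟨r, hr, hrT, hrA⟩ : ∃ r : ℝ, 0 < r ∧ Metric.ball z₀ r ⊆ D.T i ∧
      ∀ z ∈ Metric.ball z₀ r, ‖D.A i z - L‖ ≤ δ / (2 * s) := by
    have h1 : ContinuousAt (D.A i) z₀ := (hD.contA i).continuousAt ((hD.openT i).mem_nhds hz₀T)
    have h2 : ∀ᶠ z in 𝓝 z₀, ‖D.A i z - L‖ < δ / (2 * s) := by
      have h3 : Tendsto (fun z => ‖D.A i z - L‖) (𝓝 z₀) (𝓝 ‖L - L‖) := (h1.sub continuousAt_const).norm
      rw [sub_self, norm_zero] at h3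
      exact h3.eventually (gt_mem_nhds (by positivity))
    obtain ⟨r, hr, hr'⟩ := Metric.eventually_nhds_iff_ball.1 (h2.and ((hD.openT i).mem_nhds hz₀T))
    exact ⟨r, hr, fun z hz => (hr' z hz).2, fun z hz => (hr' z hz).1.le⟩
  set R : ℝ := r / (4 * s) with hR
  have hR0 : 0 < R := by positivity
  have hRr : 2 * R * s < r := by
    rw [hR]; field_simp; linarith
  set η : ℝ := Real.log (1 + δ / 2) / 3 with hη
  have hη0 : 0 < η := div_pos (Real.log_pos (by linarith)) (by norm_num)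
  have hηe : Real.exp (3 * η) = 1 + δ / 2 := by
    rw [hη, mul_div_cancel₀ _ (by norm_num : (3 : ℝ) ≠ 0), Real.exp_log (by positivity)]
  set K : Set ℂ := Metric.closedBall z₀ (2 * R * s) with hK
  have hKb : K ⊆ Metric.ball z₀ r := Metric.closedBall_subset_ball hRr
  have hKT : K ⊆ D.T i := hKb.trans hrT
  have hKc : IsCompact K := isCompact_closedBall _ _
  set χ : ℂ → ℝ := fun z => Pool.Agent.L7h46.SB.chi 0 R η (L (z - z₀)) with hχ
  have hχc : Continuous χ :=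
    (Pool.Agent.L7h46.SB.chi_contDiff 0 R η).continuous.comp
      (L.continuous.comp (continuous_id.sub continuous_const))
  have hχ0 : ∀ z, 0 ≤ χ z := fun z => Pool.Agent.L7h46.SB.chi_nonneg _ _ _ _
  have hχ1 : ∀ z, χ z ≤ 1 := fun z => Pool.Agent.L7h46.SB.chi_le_one _ _ _ _
  have hχn : ∀ z, χ z ≠ 0 → R ^ 2 * Real.exp (-3 * η) < ‖L (z - z₀)‖ ^ 2 ∧
      ‖L (z - z₀)‖ ^ 2 < R ^ 2 * Real.exp (3 * η) := by
    intro z hz
    have := Pool.Agent.L7h46.SB.chi_ne hR0 hη0 hz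
    simpa [Pool.Agent.L7h46.SB.sq] using this
  have hLK : ∀ z, ‖L (z - z₀)‖ ≤ 2 * R → z ∈ K := by
    intro z hz
    rw [hK, Metric.mem_closedBall, dist_eq_norm]
    calc ‖z - z₀‖ ≤ s * ‖L (z - z₀)‖ := hLs _
      _ ≤ s * (2 * R) := by gcongr
      _ = 2 * R * s := by ring
  have hχK : ∀ z, χ z ≠ 0 → z ∈ K := by
    intro z hz
    apply hLK
    have h1 := (hχn z hz).2
    rw [hηe] at h1
    refine le_of_sq_le_sq ?_ (by positivity)
    nlinarith [sq_nonneg R]
  set B : ℂ → ℂ →L[ℝ] ℂ := fun z => (1 - χ z) • D.A i z + (χ z * kf R (L (z - z₀))) • L with hB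
  have hB0 : ∀ z, χ z = 0 → B z = D.A i z := by
    intro z hz
    ext1 u
    show (1 - χ z) • D.A i z u + (χ z * kf R (L (z - z₀))) • L u = D.A i z u
    rw [hz]
    simp
  have hBc : ContinuousOn B (D.T i) := by
    have h1 : Continuous fun z => kf R (L (z - z₀)) := by
      unfold kf
      refine continuous_const.div (continuous_const.add
        ((L.continuous.comp (continuous_id.sub continuous_const)).norm.pow 2)) fun z => ?_
      positivity
    exact ((continuous_const.sub hχc).continuousOn.smul (hD.contA i)).add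
      ((hχc.mul h1).smul continuous_const).continuousOn
  have hexp : 1 + 4 * δ ≤ Real.exp ε := by
    have := Real.add_one_le_exp ε
    linarith
  have hbound : ∀ z ∈ D.T i, ∀ u, ‖D.A i z u‖ ≤ Real.exp ε * ‖B z u‖ ∧
      ‖B z u‖ ≤ Real.exp ε * ‖D.A i z u‖ := by
    intro z hz u
    by_cases h0 : χ z = 0
    · rw [hB0 z h0]
      have h1 : 1 ≤ Real.exp ε := Real.one_le_exp hε.le
      have h2 := norm_nonneg (D.A i z u)
      constructor <;> nlinarith
    · have hzK := hχK z h0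
      obtain ⟨q1, q2⟩ := hχn z h0
      have hk := kf_bound hR0 hη0 q1 q2
      rw [hηe] at hk
      have hk' : |kf R (L (z - z₀)) - 1| ≤ δ / 2 := by linarith
      have hAL : ‖D.A i z u - L u‖ ≤ δ / 2 * ‖L u‖ := by
        have h1 : ‖(D.A i z - L) u‖ ≤ ‖D.A i z - L‖ * ‖u‖ := (D.A i z - L).le_opNorm u
        have h2 := hrA z (hKb hzK)
        calc ‖D.A i z u - L u‖ ≤ ‖D.A i z - L‖ * ‖u‖ := h1
          _ ≤ δ / (2 * s) * (s * ‖L u‖) := by
              have := hLs u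
              gcongr
          _ = δ / 2 * ‖L u‖ := by field_simp
      have hBL : ‖B z u - L u‖ ≤ δ / 2 * ‖L u‖ := by
        have e1 : B z u - L u = (1 - χ z) • (D.A i z u - L u) +
            (χ z * (kf R (L (z - z₀)) - 1)) • L u := by
          simp only [hB]
          show (1 - χ z) • D.A i z u + (χ z * kf R (L (z - z₀))) • L u - L u = _
          module
        have hc0 := hχ0 z
        have hc1 := hχ1 z
        rw [e1]
        calc ‖(1 - χ z) • (D.A i z u - L u) + (χ z * (kf R (L (z - z₀)) - 1)) • L u‖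
            ≤ ‖(1 - χ z) • (D.A i z u - L u)‖ + ‖(χ z * (kf R (L (z - z₀)) - 1)) • L u‖ :=
              norm_add_le _ _
          _ = (1 - χ z) * ‖D.A i z u - L u‖ + χ z * |kf R (L (z - z₀)) - 1| * ‖L u‖ := by
              rw [norm_smul, norm_smul, Real.norm_eq_abs, Real.norm_eq_abs, abs_mul,
                abs_of_nonneg hc0, abs_of_nonneg (sub_nonneg.2 hc1)]
          _ ≤ (1 - χ z) * (δ / 2 * ‖L u‖) + χ z * (δ / 2) * ‖L u‖ := by
              have : 0 ≤ 1 - χ z := sub_nonneg.2 hc1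
              gcongr
          _ = δ / 2 * ‖L u‖ := by ring
      have hl := norm_nonneg (L u)
      have a1 : ‖D.A i z u‖ ≤ (1 + δ / 2) * ‖L u‖ := by
        have := norm_sub_norm_le (D.A i z u) (L u)
        linarith
      have a2 : (1 - δ / 2) * ‖L u‖ ≤ ‖D.A i z u‖ := by
        have := norm_sub_norm_le (L u) (D.A i z u)
        rw [norm_sub_rev] at this
        linarith
      have b1 : ‖B z u‖ ≤ (1 + δ / 2) * ‖L u‖ := by
        have := norm_sub_norm_le (B z u) (L u)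
        linarith
      have b2 : (1 - δ / 2) * ‖L u‖ ≤ ‖B z u‖ := by
        have := norm_sub_norm_le (L u) (B z u)
        rw [norm_sub_rev] at this
        linarith
      have hE : (1 + δ / 2) ≤ Real.exp ε * (1 - δ / 2) := by nlinarith
      have hE0 := Real.exp_pos ε
      constructor
      · calc ‖D.A i z u‖ ≤ (1 + δ / 2) * ‖L u‖ := a1
          _ ≤ Real.exp ε * (1 - δ / 2) * ‖L u‖ := by gcongr
          _ = Real.exp ε * ((1 - δ / 2) * ‖L u‖) := by ring
          _ ≤ Real.exp ε * ‖B z u‖ := by gcongr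
      · calc ‖B z u‖ ≤ (1 + δ / 2) * ‖L u‖ := b1
          _ ≤ Real.exp ε * (1 - δ / 2) * ‖L u‖ := by gcongr
          _ = Real.exp ε * ((1 - δ / 2) * ‖L u‖) := by ring
          _ ≤ Real.exp ε * ‖D.A i z u‖ := by gcongr
  have hBd : ∀ z ∈ D.T i, (B z).det ≠ 0 := by
    intro z hz
    apply det_ne
    intro u hu
    have h1 := (hbound z hz u).1
    rw [hu, norm_zero, mul_zero] at h1
    have h2 : D.A i z u = 0 := norm_le_zero_iff.1 h1
    have h3 := Pool.Agent.Y708.QE.inv_apply' (hD.det i z hz) u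
    rw [h2, map_zero] at h3
    exact h3.symm
  have hBK : ∀ z ∈ D.T i, z ∉ K → B z = D.A i z := fun z _ hz =>
    hB0 z (by by_contra h; exact hz (hχK z h))
  refine ⟨mod D i B, wm μ (dens D i B), mod_surf hD hKc hKT hBc hBd hBK,
    mod_near hD hε.le hbound, i, z₀, L, R, η, R ^ 2, hLd, hR0, hη0, by positivity, ?_⟩
  intro z h1 h2
  have hzK : z ∈ K := by
    apply hLK
    refine h2.trans ?_
    have h3 : Real.exp η ≤ Real.exp (3 * η) := Real.exp_le_exp.2 (by linarith)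
    rw [hηe] at h3
    nlinarith
  obtain ⟨x, hx, rfl⟩ : ∃ x ∈ D.U i, D.φ i x = z := hKT hzK
  refine ⟨⟨x, hx, rfl⟩, fun v => ?_⟩
  show ‖mod D i B i (D.φ i x) v‖ ^ 2 = _
  rw [norm_mod hD hx hx, Pt_self hD hx]
  show ‖B (D.φ i x) v‖ ^ 2 = _
  have hone : χ (D.φ i x) = 1 := by
    apply Pool.Agent.L7h46.SB.chi_one hR0 hη0
    · simpa using h1
    · simpa using h2
  have e1 : B (D.φ i x) = kf R (L (D.φ i x - z₀)) • L := by
    ext1 u
    show (1 - χ (D.φ i x)) • D.A i (D.φ i x) u + (χ (D.φ i x) * kf R (L (D.φ i x - z₀))) • L u =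
      kf R (L (D.φ i x - z₀)) • L u
    rw [hone]
    simp
  rw [e1]
  show ‖kf R (L (D.φ i x - z₀)) • L v‖ ^ 2 = _
  rw [norm_smul, Real.norm_eq_abs, mul_pow, sq_abs]
  have key : ∀ N V : ℝ, (2 * R ^ 2 / (R ^ 2 + N ^ 2)) ^ 2 * V ^ 2 =
      R ^ 2 * (2 * R / (R ^ 2 + N ^ 2)) ^ 2 * V ^ 2 := by
    intro N V
    clear_value R
    rw [div_pow, div_pow]
    ring
  exact key _ _

end Pool.Agent.L7h46.SM
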