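import Pool.Agent.L7h70.SB.Top
import Pool.Agent.L7h46.SM.Mod

/-!
# Project SM: clusters for bands in linear coordinates (`S_CLL`)
-/

set_option autoImplicit false

open Set Filter Topology MeasureTheory
open scoped Real ContDiff
open Pool.Agent.Y262.QE Pool.Agent.Y264.QR

noncomputable section

namespace Pool.Agent.L7h46.SM

open Pool.Agent.L7h70.SM Pool.Agent.L7h70.SB

section

variable {M : Type}

/-- the surface with the charts composed with affine maps of the plane -/
def lin (D : Data M) (a : Fin D.N → ℂ) (e : Fin D.N → ℂ ≃L[ℝ] ℂ) : Data M where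
  N := D.N
  U := D.U
  φ := fun j x => e j (D.φ j x - a j)
  ψ := fun j y => D.ψ j (a j + (e j).symm y)
  A := fun j y => (D.A j (a j + (e j).symm y)).comp ((e j).symm : ℂ →L[ℝ] ℂ)

variable {D : Data M} {a : Fin D.N → ℂ} {e : Fin D.N → ℂ ≃L[ℝ] ℂ}

lemma back_fwd (j : Fin D.N) (z : ℂ) : a j + (e j).symm (e j (z - a j)) = z := by
  rw [ContinuousLinearEquiv.symm_apply_apply]; ring

lemma fwd_back (j : Fin D.N) (y : ℂ) : e j (a j + (e j).symm y - a j) = y := by
  rw [add_sub_cancel_left, ContinuousLinearEquiv.apply_symm_apply]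

lemma mem_lin_T (j : Fin D.N) (y : ℂ) : y ∈ (lin D a e).T j ↔ a j + (e j).symm y ∈ D.T j := by
  constructor
  · rintro ⟨x, hx, rfl⟩
    refine ⟨x, hx, ?_⟩
    exact (back_fwd j (D.φ j x)).symm
  · rintro ⟨x, hx, h⟩
    refine ⟨x, hx, ?_⟩
    show e j (D.φ j x - a j) = y
    rw [h, fwd_back]

lemma det_symm_ne (E : ℂ ≃L[ℝ] ℂ) : ((E.symm : ℂ →L[ℝ] ℂ)).det ≠ 0 := by
  apply det_ne
  intro u hu
  exact E.symm.map_eq_zero_iff.1 hu

lemma back_cont (j : Fin D.N) : Continuous fun y : ℂ => a j + (e j).symm y :=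
  continuous_const.add (e j).symm.continuous

lemma back_deriv (j : Fin D.N) (y : ℂ) :
    HasFDerivAt (fun y : ℂ => a j + (e j).symm y) ((e j).symm : ℂ →L[ℝ] ℂ) y :=
  ((e j).symm.hasFDerivAt).const_add (a j)

end

section

variable {M : Type} [MetricSpace M] [CompactSpace M] [MeasurableSpace M] [BorelSpace M]
  {μ : Measure M} {D : Data M}

omit [CompactSpace M] in
lemma meas_img (hD : D.IsSurf μ) {j : Fin D.N} {S : Set M} (hS : S ⊆ D.U j) (hSm : MeasurableSet S) :
    MeasurableSet (D.φ j '' S) := by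
  have hST : D.φ j '' S ⊆ D.T j := image_mono hS
  have himg : ∀ z ∈ D.T j, (D.ψ j z ∈ S ↔ z ∈ D.φ j '' S) := by
    rintro z ⟨x, hx, rfl⟩
    rw [hD.left j x hx]
    constructor
    · intro h; exact ⟨x, h, rfl⟩
    · rintro ⟨y, hy, hxy⟩
      have : D.ψ j (D.φ j y) = D.ψ j (D.φ j x) := by rw [hxy]
      rw [hD.left j y (hS hy), hD.left j x hx] at this
      exact this ▸ hy
  have e : D.φ j '' S = D.T j ∩ D.ψ j ⁻¹' S := by
    ext z
    constructor
    · intro hz; exact ⟨hST hz, (himg z (hST hz)).mpr hz⟩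
    · rintro ⟨hz, hz'⟩; exact (himg z hz).mp hz'
  rw [e]
  have hmm : Measurable (fun z : D.T j => D.ψ j z) :=
    (continuousOn_iff_continuous_domRestrict.mp (hD.contψ j)).measurable
  have h3 : MeasurableSet ((fun z : D.T j => D.ψ j z) ⁻¹' S) := hmm hSm
  have h4 := (hD.openT j).measurableSet.subtype_image h3
  convert h4 using 1
  ext z
  simp [and_comm]

omit [CompactSpace M] in
theorem lin_surf (hD : D.IsSurf μ) (a : Fin D.N → ℂ) (e : Fin D.N → ℂ ≃L[ℝ] ℂ) :
    (lin D a e).IsSurf μ := by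
  refine ⟨hD.openU, hD.cover, ?_, ?_, ?_, ?_, ?_, ?_, ?_, ?_⟩
  · intro (j : Fin D.N) x (hx : x ∈ D.U j)
    show D.ψ j (a j + (e j).symm (e j (D.φ j x - a j))) = x
    rw [back_fwd, hD.left j x hx]
  · intro (j : Fin D.N)
    show ContinuousOn (fun x => e j (D.φ j x - a j)) (D.U j)
    exact (e j).continuous.comp_continuousOn ((hD.contφ j).sub continuousOn_const)
  · intro (j : Fin D.N)
    have h : (lin D a e).T j = (fun y : ℂ => a j + (e j).symm y) ⁻¹' D.T j :=
      Set.ext fun y => mem_lin_T j y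
    rw [h]
    exact (hD.openT j).preimage (back_cont j)
  · intro (j : Fin D.N)
    show ContinuousOn (fun y => D.ψ j (a j + (e j).symm y)) ((lin D a e).T j)
    exact (hD.contψ j).comp (back_cont j).continuousOn fun y hy => (mem_lin_T j y).1 hy
  · intro (j : Fin D.N) y hy
    show ((D.A j (a j + (e j).symm y)).comp ((e j).symm : ℂ →L[ℝ] ℂ)).det ≠ 0
    rw [det_comp]
    exact mul_ne_zero (hD.det j _ ((mem_lin_T j y).1 hy)) (det_symm_ne _)
  · intro (j : Fin D.N)
    show ContinuousOn (fun y => (D.A j (a j + (e j).symm y)).comp ((e j).symm : ℂ →L[ℝ] ℂ))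
      ((lin D a e).T j)
    exact ((hD.contA j).comp (back_cont j).continuousOn fun y hy => (mem_lin_T j y).1 hy).clm_comp
      continuousOn_const
  · intro (k : Fin D.N) (j : Fin D.N) x (hk : x ∈ D.U k) (hj : x ∈ D.U j)
    obtain ⟨h1, h2⟩ := hD.tr k j x hk hj
    set f : ℂ → ℂ := fun z => D.φ j (D.ψ k z) with hf
    set y₀ : ℂ := e k (D.φ k x - a k) with hy₀
    have hb : a k + (e k).symm y₀ = D.φ k x := back_fwd k _
    have hP : HasFDerivAt f (fderiv ℝ f (D.φ k x)) (a k + (e k).symm y₀) := by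
      rw [hb]
      exact (h1.differentiableAt one_ne_zero).hasFDerivAt
    have h3 : HasFDerivAt (fun y => f (a k + (e k).symm y))
        ((fderiv ℝ f (D.φ k x)).comp ((e k).symm : ℂ →L[ℝ] ℂ)) y₀ :=
      HasFDerivAt.comp (g := f) (f := fun y => a k + (e k).symm y) y₀ hP (back_deriv k y₀)
    have h4 : HasFDerivAt (fun y => e j (f (a k + (e k).symm y) - a j))
        (((e j) : ℂ →L[ℝ] ℂ).comp ((fderiv ℝ f (D.φ k x)).comp ((e k).symm : ℂ →L[ℝ] ℂ))) y₀ :=
      HasFDerivAt.comp (g := e j) (f := fun y => f (a k + (e k).symm y) - a j) y₀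
        (e j).hasFDerivAt (h3.sub_const (a j))
    constructor
    · show ContDiffAt ℝ 1 (fun y => e j (f (a k + (e k).symm y) - a j)) y₀
      have h5 : ContDiffAt ℝ 1 (fun y => f (a k + (e k).symm y)) y₀ := by
        refine ContDiffAt.comp (g := f) (f := fun y => a k + (e k).symm y) y₀ ?_ ?_
        · rw [hb]; exact h1
        · exact (contDiff_const.add (e k).symm.contDiff).contDiffAt
      exact ContDiffAt.comp (g := e j) (f := fun y => f (a k + (e k).symm y) - a j) y₀
        (e j).contDiff.contDiffAt (h5.sub contDiffAt_const)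
    · intro v
      show ‖((D.A j (a j + (e j).symm (e j (D.φ j x - a j)))).comp ((e j).symm : ℂ →L[ℝ] ℂ))
        (fderiv ℝ (fun y => e j (f (a k + (e k).symm y) - a j)) y₀ v)‖ =
        ‖((D.A k (a k + (e k).symm y₀)).comp ((e k).symm : ℂ →L[ℝ] ℂ)) v‖
      rw [back_fwd, h4.fderiv, hb]
      show ‖D.A j (D.φ j x) ((e j).symm (e j (fderiv ℝ f (D.φ k x) ((e k).symm v))))‖ =
        ‖D.A k (D.φ k x) ((e k).symm v)‖
      rw [ContinuousLinearEquiv.symm_apply_apply]
      exact h2 _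
  · intro (j : Fin D.N) S (hS : S ⊆ D.U j) hSm
    rw [hD.area j S hS hSm]
    show ∫⁻ z in D.φ j '' S, ENNReal.ofReal |(D.A j z).det| =
      ∫⁻ y in (fun x => e j (D.φ j x - a j)) '' S, ENNReal.ofReal
        |((D.A j (a j + (e j).symm y)).comp ((e j).symm : ℂ →L[ℝ] ℂ)).det|
    set s : Set ℂ := (fun x => e j (D.φ j x - a j)) '' S with hs
    have hs1 : (fun y : ℂ => a j + (e j).symm y) '' s = D.φ j '' S := by
      rw [hs, image_image]
      exact image_congr fun x _ => back_fwd j _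
    have hs2 : s = (fun y : ℂ => a j + (e j).symm y) ⁻¹' (D.φ j '' S) := by
      ext y
      constructor
      · rintro ⟨x, hx, rfl⟩
        exact ⟨x, hx, (back_fwd j _).symm⟩
      · rintro ⟨x, hx, h⟩
        refine ⟨x, hx, ?_⟩
        show e j (D.φ j x - a j) = y
        rw [h]
        exact fwd_back j y
    have hsm : MeasurableSet s := by
      rw [hs2]
      exact (back_cont j).measurable (meas_img hD hS hSm)
    rw [← hs1, lintegral_image_eq_lintegral_abs_det_fderiv_mul volume hsm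
      (fun y _ => (back_deriv j y).hasFDerivWithinAt) ?_]
    · refine lintegral_congr fun y => ?_
      rw [det_comp, abs_mul, mul_comm, ENNReal.ofReal_mul (abs_nonneg _)]
    · intro y _ y' _ h
      have h' : a j + (e j).symm y = a j + (e j).symm y' := h
      exact (e j).symm.injective (add_left_cancel h')

omit [CompactSpace M] [BorelSpace M] in
theorem lin_gr (hD : D.IsSurf μ) (a : Fin D.N → ℂ) (e : Fin D.N → ℂ ≃L[ℝ] ℂ) :
    (lin D a e).gr = D.gr := by
  funext F x
  show ∑ j : Fin D.N, (D.pc j).indicator ((lin D a e).gc j F) x =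
    ∑ j : Fin D.N, (D.pc j).indicator (D.gc j F) x
  refine Finset.sum_congr rfl fun j _ => ?_
  by_cases hx : x ∈ D.pc j
  · rw [indicator_of_mem hx, indicator_of_mem hx]
    have hU : x ∈ D.U j := hx.1
    have hd := hD.det j (D.φ j x) ⟨x, hU, rfl⟩
    set y₀ : ℂ := e j (D.φ j x - a j) with hy₀
    have hb : a j + (e j).symm y₀ = D.φ j x := back_fwd j _
    show grd ((D.A j (a j + (e j).symm y₀)).comp ((e j).symm : ℂ →L[ℝ] ℂ))
      (fderiv ℝ (fun y => F (D.ψ j (a j + (e j).symm y))) y₀) = grd (D.A j (D.φ j x)) (D.dc j F x)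
    have h1 : fderiv ℝ (fun y => F (D.ψ j (a j + (e j).symm y))) y₀ =
        (D.dc j F x).comp ((e j).symm : ℂ →L[ℝ] ℂ) := by
      have h2 := (e j).symm.comp_right_fderiv (f := fun z => F (D.ψ j (a j + z))) (x := y₀)
      have h3 : fderiv ℝ (fun z => F (D.ψ j (a j + z))) ((e j).symm y₀) =
          fderiv ℝ (fun z => F (D.ψ j z)) (a j + (e j).symm y₀) :=
        fderiv_comp_add_left (f := fun z => F (D.ψ j z)) (a j)
      rw [h3, hb] at h2
      exact h2
    rw [h1, hb]
    have hd' : ((D.A j (D.φ j x)).comp ((e j).symm : ℂ →L[ℝ] ℂ)).det ≠ 0 := by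
      rw [det_comp]
      exact mul_ne_zero hd (det_symm_ne _)
    have h4 : ∀ v : ℂ, (e j).symm (((D.A j (D.φ j x)).comp ((e j).symm : ℂ →L[ℝ] ℂ)).inverse v) =
        (D.A j (D.φ j x)).inverse v := by
      intro v
      have h5 := Pool.Agent.Y708.QE.inv_apply hd' v
      have h6 : D.A j (D.φ j x) ((e j).symm
        (((D.A j (D.φ j x)).comp ((e j).symm : ℂ →L[ℝ] ℂ)).inverse v)) = v := h5
      rw [← Pool.Agent.Y708.QE.inv_apply' hd ((e j).symm
        (((D.A j (D.φ j x)).comp ((e j).symm : ℂ →L[ℝ] ℂ)).inverse v)), h6]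
    unfold grd
    apply Complex.ext
    · show D.dc j F x ((e j).symm _) = _
      rw [h4]
    · show D.dc j F x ((e j).symm _) = _
      rw [h4]
  · rw [indicator_of_notMem hx, indicator_of_notMem hx]

omit [MetricSpace M] [CompactSpace M] [MeasurableSpace M] [BorelSpace M] in
theorem lin_C1 (a : Fin D.N → ℂ) (e : Fin D.N → ℂ ≃L[ℝ] ℂ) (F : M → ℝ) :
    (lin D a e).C1 F ↔ D.C1 F := by
  constructor
  · intro h (j : Fin D.N)
    have h1 : ContDiffOn ℝ 1 (fun y => F (D.ψ j (a j + (e j).symm y))) ((lin D a e).T j) := h j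
    have h2 : ContDiffOn ℝ 1 (fun z : ℂ => e j (z - a j)) (D.T j) :=
      ((e j).contDiff.comp (contDiff_id.sub contDiff_const)).contDiffOn
    have h3 := h1.comp h2 fun z hz => (mem_lin_T j _).2 (by rw [back_fwd]; exact hz)
    refine h3.congr fun z _ => ?_
    show F (D.ψ j z) = F (D.ψ j (a j + (e j).symm (e j (z - a j))))
    rw [back_fwd]
  · intro h (j : Fin D.N)
    show ContDiffOn ℝ 1 (fun y => F (D.ψ j (a j + (e j).symm y))) ((lin D a e).T j)
    exact (h j).comp (contDiff_const.add (e j).symm.contDiff).contDiffOn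
      fun y hy => (mem_lin_T j y).1 hy

omit [CompactSpace M] [BorelSpace M] in
theorem lin_eig (hD : D.IsSurf μ) (a : Fin D.N → ℂ) (e : Fin D.N → ℂ ≃L[ℝ] ℂ) {u : ℕ → M → ℝ}
    {lam : ℕ → ℝ} (h : EigBasis D μ u lam) : EigBasis (lin D a e) μ u lam := by
  refine ⟨fun j => ?_, h.mono, h.orth, h.total⟩
  obtain ⟨F, h1, h2, h3, h4⟩ := (h.eig j).ex
  refine ⟨(h.eig j).mem, F, fun k => (lin_C1 a e _).2 (h1 k), h2, ?_, fun G hG => ?_⟩
  · rw [lin_gr hD]
    exact h3
  · rw [lin_gr hD]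
    exact h4 G ((lin_C1 a e _).1 hG)

end

theorem s_CLL : S_CLL := by
  intro M _ _ _ _ μ D hD hL
  obtain ⟨i, z₀, L, R, η, c, hLd, hR, hη, hc, hband⟩ := hL
  classical
  set E : ℂ ≃L[ℝ] ℂ := L.toContinuousLinearEquivOfDetNeZero hLd with hE
  have hEL : ∀ v, E v = L v := fun v => by
    have h := L.coe_toContinuousLinearEquivOfDetNeZero hLd
    conv_rhs => rw [← h]
    rfl
  have hLE : ∀ y, L (E.symm y) = y := fun y => by rw [← hEL, ContinuousLinearEquiv.apply_symm_apply]
  set a : Fin D.N → ℂ := fun _ => z₀ with ha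
  set e : Fin D.N → ℂ ≃L[ℝ] ℂ := fun _ => E with he
  have hD' := lin_surf hD a e
  have hB : HasBand (lin D a e) (0 : C(M, ℝ)) := by
    refine ⟨i, 0, R, η, c, hR, hη, hc, fun y h1 h2 => ?_⟩
    rw [sub_zero] at h1 h2
    have e0 : z₀ + E.symm y - z₀ = E.symm y := add_sub_cancel_left _ _
    obtain ⟨h3, h4⟩ := hband (z₀ + E.symm y) (by rw [e0, hLE]; exact h1) (by rw [e0, hLE]; exact h2)
    refine ⟨(mem_lin_T (D := D) (a := a) (e := e) i y).2 h3, fun v => ?_⟩
    show Real.exp ((0 : C(M, ℝ)) (D.ψ i (z₀ + E.symm y))) * ‖D.A i (z₀ + E.symm y) (E.symm v)‖ ^ 2 = _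
    rw [h4, e0, hLE, hLE, sub_zero]
    simp
  obtain ⟨κ, hκ, h⟩ := t_CL M μ (lin D a e) hD' 0 hB
  refine ⟨κ, hκ, fun u lam hu => h u lam ?_⟩
  have h1 : (lin D a e).conf (fun x => Real.exp ((0 : C(M, ℝ)) x)) = lin D a e := by
    unfold Data.conf
    simp
  have h2 : wm μ (fun x => Real.exp ((0 : C(M, ℝ)) x)) = μ := by
    unfold wm
    have : (fun x : M => ENNReal.ofReal (Real.exp ((0 : C(M, ℝ)) x))) = 1 := by
      funext x
      simp
    rw [this, withDensity_one]
  rw [h1, h2]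
  exact lin_eig hD a e hu

end Pool.Agent.L7h46.SM
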